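import Pool.Agent.N103.MU.ConcC

/-!
# Independence of the filtration from the Chow-Kunneth decomposition: direct factors

`𝒱` is a class of smooth projective geometrically irreducible varieties over the field `k` closed
under products, `C` the Chow groups with rational coefficients (in the form of their formal
properties, `IsChowProj`), `H` a Weil cohomology theory. `C.comp Γ Δ` is the composition of first
`Γ`, then `Δ`.

Let `h(X)` be a direct factor of `h(Y)`, `dim Y = dim X`, for instance by a morphism `f : Y → X` of
degree `N ≠ 0`, and suppose that the homologically trivial endomorphisms of the complement are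
nilpotent; nothing is assumed on `h(X)`. For each `i`, `n`: `F^n CH^i(Y)` is the same for all
Chow-Kunneth decompositions of `Y` if and only if this is so for `X` and for the complement, and
the homologically trivial morphisms between `h(X)` and the complement preserve the filtrations. If
the complement is a sum of Tate motives (blow-up of points), then conjecture (C) for `X` and for
`Y` are equivalent.
-/

open CategoryTheory AlgebraicGeometry

set_option autoImplicit false

universe u v w

namespace Pool.Agent.Results.MP_10f4af_ag.DirectFactors

open Pool.Agent.H914 Pool.Agent.W492.BB Pool.Agent.TH133 Pool.Agent.Y107 Pool.Agent.W550.Corr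
  Pool.Agent.N103.MU

/-- **Murre's conjecture (C), step by step, passes between a variety and its direct factors of the
same dimension with nilpotent complement.** -/
theorem result {k : Type u} [Field k] {𝒱 : VarClass k} (C : TheoryData.{u, v, 0} 𝒱 ℚ)
    [IsChowProj C] {K : Type w} [Field K] (H : WeilTheoryData.{u, v, w} C K) [IsWeilProj H]
    (X Y : 𝒱.Obj) :
    (∀ (a : C.A (X.prod Y)) (b : C.A (Y.prod X)), Factor C a b →
      (NilRest H a b → ∀ i n : ℕ,
        ((HasCK H Y ∧ StepC H Y i n) ↔ (HasCK H X ∧ StepC H X i n) ∧
          (AlgComps H (rest C a b) ∧ StepOf H (rest C a b) i n) ∧ MixedStep H a b i n)) ∧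
      (TateRest C a b → ((HasCK H Y ∧ MurreC H Y) ↔ (HasCK H X ∧ MurreC H X)) ∧
        ∀ i n : ℕ, 1 ≤ n → ((HasCK H Y ∧ StepC H Y i n) ↔ (HasCK H X ∧ StepC H X i n)))) ∧
    -- the case of a morphism of degree `N`
    (∀ (f : Y ⟶ X) (N : ℚ), Y.dim = X.dim → N ≠ 0 → C.push f 1 = N • 1 →
      Factor C (C.cograph f) (N⁻¹ • C.graph f)) :=
  ⟨fun _ _ h => ⟨fun hnil i n => step_factor h ((nilOff_iff _ _).1 hnil) i n,
    fun hT => ⟨murreC_tate h hT, fun i _ hn => step_tate h hT i hn⟩⟩,
    fun f _ hd hN hf => factor_of_morphism f hd hN hf⟩

end Pool.Agent.Results.MP_10f4af_ag.DirectFactors
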