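import Pool.Agent.N567.MD.MainC

/-!
# Murre's conjecture (C), finite-dimensionality and cycles of middle codimension

Let `𝒱` be the class of all the smooth projective varieties over a field which have a Chow-Kunneth
decomposition, or a class of varieties which satisfy the standard conjecture of Lefschetz type
(closed under products and smooth linear sections).

The independence of the filtrations `F^ν CH^i(X)` of the Chow-Kunneth decomposition of `X`, for all
`X` in `𝒱`, is equivalent to the conjunction of the finite-dimensionality in the sense of Kimura of
all `X` in `𝒱`, and the existence, for the varieties `X` of dimension `2 j + 1` (for arbitrarily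
large `j`), of ONE Chow-Kunneth decomposition `π` such that the `π b` with `b > 2 j` act as zero on
`CH^j(X)`. In particular, (C) implies Kimura's conjecture for the varieties which have Chow-Kunneth
decompositions. It is also equivalent to a statement without Chow-Kunneth decompositions: for
varieties `X` of dimension `2 j + 1` the self-correspondences of degree zero which act as zero on
`H^m(X)` for `m < dim X` act nilpotently on `CH^j(X)`.

The idea of the proof. Independence implies that `F^0 CH^i(X)` is everything (an argument of the
library), hence that no correspondence raises the weights. If there were a phantom idempotent on `X`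
which acts non-trivially on cycles, it could be moved between the parts of a Chow-Kunneth
decomposition, and the filtration would change; so there are no phantoms. Applied to the
antisymmetrizer (symmetrizer) of a large power of the even (odd) part of `X` this shows that the
motive of `X` is finite-dimensional. Conversely, finite-dimensionality implies that all the
decompositions of a variety are conjugate, and multiplying `X` with curves one reduces the first
half of (B) to the case `dim X = 2 j + 1`.
-/

set_option autoImplicit false

universe u v w

namespace Pool.Agent.Results.MP_10f4af_ag.FiniteDimensionality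

open Pool.Agent.H914 Pool.Agent.N164.Prim Pool.Agent.N567.Mid
open Pool.Agent.W492.BB (TheoryData WeilTheoryData)

/-- Let `𝒱` be a class of varieties, closed under products (with Chow groups `C` and a Weil
cohomology `H`), which contains a curve and which is a Lefschetz class or consists of varieties with
Chow-Kunneth decompositions.

* The following are equivalent: the varieties in `𝒱` have Chow-Kunneth decompositions, and the
  filtrations on their Chow groups are independent of the decomposition; they have Chow-Kunneth
  decompositions, and `F^0 CH^i(X) = CH^i(X)` for all of them; the varieties in `𝒱` are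
  finite-dimensional in the sense of Kimura, and for arbitrarily large `j` every `X` of dimension
  `2 j + 1` has a Chow-Kunneth decomposition `π` such that the `π b` with `b > 2 j` act as zero on
  `CH^j(X)`; for arbitrarily large `j` every variety of dimension `2 j + 1` is covered by a variety
  `X'` of dimension `2 j' + 1` such that the self-correspondences which act as zero on `H^m(X')` for
  `m < dim X'` act nilpotently on `CH^(j')(X')`; the varieties in `𝒱` have Chow-Kunneth
  decompositions, and for arbitrarily large `j`, `F^0 CH^j(X) = CH^j(X)` for all the decompositions of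
  the varieties `X` of dimension `2 j + 1`.
* If the last equality holds for one `j` and all `X` of dimension `2 j + 1`, then
  `F^0 CH^i(X) = CH^i(X)` for all `X` of dimension at most `j` and all `i`, and the filtrations are
  independent of the decomposition for all `X` with `2 dim X ≤ j`. -/
theorem result {k : Type u} [Field k] {𝒱 : VarClass k} {C : TheoryData.{u, v, 0} 𝒱 ℚ}
    [IsChowTheory C] {K : Type w} [Field K] {H : WeilTheoryData.{u, v, w} C K} [IsWeilTheory H]
    (hg : IsGradedCommutative H) {T : 𝒱.Obj} (hT : T.dim = 1) (hL : IsLefschetzOrCK H) :
    List.TFAE [(∀ X : 𝒱.Obj, HasCK H X) ∧ ∀ (X : 𝒱.Obj) (i : ℕ), MurreC H X i,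
      (∀ X : 𝒱.Obj, HasCK H X) ∧ ∀ (X : 𝒱.Obj) (i : ℕ), MurreB0 H X i,
      (∀ X : 𝒱.Obj, IsKimuraFinite C X) ∧
        ∀ e : ℕ, ∃ j, e ≤ j ∧ ∀ X : 𝒱.Obj, X.dim = 2 * j + 1 → HasGoodB0 H X j,
      ∀ e : ℕ, ∃ j, e ≤ j ∧ ∀ X : 𝒱.Obj, X.dim = 2 * j + 1 →
        ∃ (X' : 𝒱.Obj) (j' : ℕ), Covers C X' X ∧ X'.dim = 2 * j' + 1 ∧ NilpotentOn H X' j',
      (∀ X : 𝒱.Obj, HasCK H X) ∧
        ∀ e : ℕ, ∃ j, e ≤ j ∧ ∀ X : 𝒱.Obj, X.dim = 2 * j + 1 → MurreB0 H X j] ∧
    (∀ j : ℕ, (∀ X : 𝒱.Obj, X.dim = 2 * j + 1 → MurreB0 H X j) →
      ∀ X : 𝒱.Obj, (X.dim ≤ j → ∀ i : ℕ, MurreB0 H X i) ∧
        (2 * X.dim ≤ j → ∀ i : ℕ, MurreC H X i)) :=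
  mainC inferInstance inferInstance hg hT hL

end Pool.Agent.Results.MP_10f4af_ag.FiniteDimensionality
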