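import Pool.Agent.N166.LD.Main

/-!
# Chow-Kunneth decompositions satisfying hard Lefschetz for a fixed class

`𝒱` is a class of smooth projective geometrically irreducible varieties over a field `k` closed
under products, `C` the Chow groups with rational coefficients (in the form of their formal
properties, `IsChowProj`), `H` a Weil cohomology theory, and `C.comp Γ Δ` the composition of first
`Γ`, then `Δ`.

Let `X` be a variety of dimension `d` and `L` a self-correspondence of `X` of degree one, for instance
the multiplication with the class of an ample divisor. We consider the Chow-Kunneth decompositions `π`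
of `X` which satisfy hard Lefschetz for `L` on the level of Chow motives (`IsLefschetz`); they exist
for abelian varieties, complete intersections, and all `X` with a finite-dimensional motive which
satisfy the standard conjecture B. How unique are they, and is the filtration
`F^n CH^i(X) = (π_{2i-n} + ⋯ + π_0) CH^i(X)` the same for all of them? No finite-dimensionality and no
nilpotence is assumed.

* A self-correspondence `c` of degree zero which commutes with `L` is triangular: it does not lower
  the degree, `π_b c π_a = 0` for `b < a`.
* Those `g` among them with `π_a g π_a = π_a` (all `a`) are automorphisms of the motive of `X` (with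
  inverses of the same kind) and act as the identity on `H(X)`, and by the conjugation of `π` they
  correspond bijectively to the decompositions in question. In particular any two of these are
  conjugate. The self-dual ones correspond to the isometries `g` if `π` is self-dual and `L`
  symmetric.
* For each `i`, `n`: `F^n CH^i(X)` is the same for all these decompositions if and only if it is
  stable under all the self-correspondences of degree zero which commute with `L`, for one of them.
* There is only one such decomposition if and only if the self-correspondences of degree zero which
  commute with `L` respect the decomposition; this is the case if `X × X` satisfies the first half of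
  Murre's conjecture (B), or if homologically trivial self-correspondences strictly lower the degree.
* The filtration in the opposite direction, by the subspaces on which `π_a = 0` for `a < K`, is always
  the same for all these decompositions.
-/

open CategoryTheory AlgebraicGeometry

set_option autoImplicit false

universe u v w

namespace Pool.Agent.Results.MP_10f4af_ag.LefschetzDecompositions

open Pool.Agent.H914 Pool.Agent.W492.BB Pool.Agent.TH133 Pool.Agent.Y107 Pool.Agent.W550.Corr
  Pool.Agent.N166.LD

/-- **The Chow-Kunneth decompositions satisfying hard Lefschetz for `L` and their filtrations.** -/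
theorem result {k : Type u} [Field k] {𝒱 : VarClass k} (C : TheoryData.{u, v, 0} 𝒱 ℚ)
    [IsChowProj C] {K : Type w} [Field K] (H : WeilTheoryData.{u, v, w} C K) [IsWeilProj H]
    (X : 𝒱.Obj) (L : C.A (X.prod X)) (π : ℕ → C.A (X.prod X)) (h : IsLefschetz H X L π) :
    -- correspondences commuting with `L` do not lower the degree
    (∀ c, Commutes C L c → NotLowering C π c) ∧
    -- the raising automorphisms move `π` to decompositions of the same kind
    (∀ g, IsRaising C L π g → (∀ (m : ℤ) (x : H.A X), H.Deg m x → H.act (H.cl g) x = x) ∧
      ∃ g', IsRaising C L π g' ∧ C.comp g g' = dg C X ∧ C.comp g' g = dg C X ∧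
        IsLefschetz H X L (fun m => C.comp (C.comp g' (π m)) g)) ∧
    -- each of them is obtained from exactly one raising automorphism
    (∀ π', IsLefschetz H X L π' →
      ∃! g, IsRaising C L π g ∧ ∀ m, C.comp (π m) g = C.comp g (π' m)) ∧
    -- self-dual decompositions correspond to isometries
    (tp C L = L → IsSelfDual C π → ∀ π', IsLefschetz H X L π' → ∀ g, IsRaising C L π g →
      (∀ m, C.comp (π m) g = C.comp g (π' m)) →
        (IsSelfDual C π' ↔ C.comp g (tp C g) = dg C X)) ∧
    -- independence of each single step of the filtration
    (∀ i n : ℕ, List.TFAE [∀ π', IsLefschetz H X L π' → ckFil C π' i n = ckFil C π i n,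
      ∀ c, Commutes C L c → ∀ z ∈ ckFil C π i n, C.act c z ∈ ckFil C π i n,
      ∀ c, Commutes C L c → RespectsStep C π i n c]) ∧
    -- uniqueness
    List.TFAE [∀ π', IsLefschetz H X L π' → π' = π,
      ∀ c, Commutes C L c → NotRaising C π c,
      ∀ c, Commutes C L c → ∀ m, C.comp (π m) c = C.comp c (π m)] ∧
    (MurreB0 H (X.prod X) ∨ StrictlyLowers H X → ∀ π', IsLefschetz H X L π' → π' = π) ∧
    -- the opposite filtration
    (∀ π', IsLefschetz H X L π' → SameOpposite C π π') := by
  obtain ⟨h1, h2, h3⟩ := main1 h
  obtain ⟨h4, h5, h6, h7⟩ := main3 h
  exact ⟨h1, h2, h3, fun hL hs π' h' g hg hgm => main2 h hL hs h' hg hgm, h4, h5, h6, h7⟩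

end Pool.Agent.Results.MP_10f4af_ag.LefschetzDecompositions
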